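import Mathlib

/-!
# MP_935088_an, project EX: a complemented subspace of `L₁[0,1]` which is isomorphic to no `L₁(μ)`

Definitions and the statements `S_xx : Prop` of all pieces, with complete proofs in the docstrings.

Idea.  Think of `[0,1]` as of the cube `{0,1}^ℕ` (binary digits).  `A = ∑ (1 - Av i)` is the
number operator on `L₁[0,1]` (`Av i` = average over the `i`-th binary digit),
`R k = (1 + 4⁻ᵏ A)⁻¹`, `U 0 = 1, U (k+1) = 2ᵏ (1 - R (k+1))`,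
`V 0 = R 0, V (k+1) = 3 · 2⁻ᵏ R k`.  Then `∑ V k U k = 1` and
`P = (U i V j)` is a bounded projection of `ℓ₁(L₁)`; its range `X` is the space.  The Rademacher
functions give `ℓ₂ ⊆ X`, so `X` is not `ℓ₁`; the noise operators flatten all trees, so `X`
does not contain `L₁[0,1]`.
-/

set_option autoImplicit false

open MeasureTheory Filter Topology Finset

namespace Pool.Agent.Exo

/-- Lebesgue measure on `[0,1]` -/
noncomputable abbrev lam : Measure ℝ := volume.restrict (Set.Icc (0 : ℝ) 1)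

/-- `L₁[0,1]` -/
abbrev E : Type := Lp ℝ 1 lam

/-- the `ℓ₁`-sum of countably many copies of `B` -/
abbrev Y (B : Type) [NormedAddCommGroup B] : Type := lp (fun _ : ℕ => B) 1

/-! ### finite cubes: functions `f : ℕ → ℝ` considered on `0, …, 2ⁿ - 1` -/

/-- normalised inner product -/
noncomputable def ip (n : ℕ) (f g : ℕ → ℝ) : ℝ := (∑ x ∈ range (2 ^ n), f x * g x) / 2 ^ n

/-- normalised `ℓ₁`-norm -/
noncomputable def l1 (n : ℕ) (f : ℕ → ℝ) : ℝ := (∑ x ∈ range (2 ^ n), |f x|) / 2 ^ n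

/-- average over the bit `j` -/
noncomputable def avg (j : ℕ) (f : ℕ → ℝ) : ℕ → ℝ := fun x => (f x + f (x ^^^ 2 ^ j)) / 2

/-- number operator -/
noncomputable def num (n : ℕ) (f : ℕ → ℝ) : ℕ → ℝ := fun x => ∑ j ∈ range n, (f x - avg j f x)

/-- restriction to even numbers -/
def ev (f : ℕ → ℝ) : ℕ → ℝ := fun y => f (2 * y)

/-- restriction to odd numbers -/
def od (f : ℕ → ℝ) : ℕ → ℝ := fun y => f (2 * y + 1)

/-- the bilinear form of the noise operator with parameter `1 - s` -/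
noncomputable def q (s : ℝ) : ℕ → (ℕ → ℝ) → (ℕ → ℝ) → ℝ
  | 0, f, g => f 0 * g 0
  | n + 1, f, g => ((2 - s) * (q s n (ev f) (ev g) + q s n (od f) (od g)) +
      s * (q s n (ev f) (od g) + q s n (od f) (ev g))) / 4

/-- N1: recursion for `ip`, `l1`, `num`.

Proof.  `range (2^(n+1))` is the disjoint union of `{2y}` and `{2y+1}`, `y < 2^n`
(`Finset.sum_range_mul_add`-type reindexing or induction), which gives the first two formulas.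
For the third one: `(2y+b) ^^^ 2^0 = 2y + (1-b)` and `(2y+b) ^^^ 2^(j+1) = 2 (y ^^^ 2^j) + b`.
So `num (n+1) g (2y) = (g(2y) - g(2y+1))/2 + num n (ev g) y`,
`num (n+1) g (2y+1) = (g(2y+1) - g(2y))/2 + num n (od g) y`; put this in the first formula. -/
def S_N1 : Prop :=
  (∀ (n : ℕ) (f g : ℕ → ℝ), ip (n + 1) f g = (ip n (ev f) (ev g) + ip n (od f) (od g)) / 2) ∧
  (∀ (n : ℕ) (f : ℕ → ℝ), l1 (n + 1) f = (l1 n (ev f) + l1 n (od f)) / 2) ∧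
  ∀ (n : ℕ) (f g : ℕ → ℝ), ip (n + 1) f (num (n + 1) g) =
    (ip n (ev f) (num n (ev g)) + ip n (od f) (num n (od g))) / 2 +
      ip n (fun y => ev f y - od f y) (fun y => ev g y - od g y) / 4

/-- N2: two-point inequality.

Proof.  Put `β = s/4`.  If `a + b = 0` both sides are `0`.  Otherwise divide by
`((a+b)/2)^(1+β)` (homogeneity; `Real.mul_rpow`, `√(c²x) = c√x`): we may assume `a = 1+t`, `b = 1-t`,
`|t| ≤ 1`, and have to show that the left side is `≤ 1`.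
By Bernoulli (concavity of `x^β`, `0 < β ≤ 1`: `Real.rpow_one_add_le_one_add_mul_self`)
`(1±t)^β ≤ 1 ± β t`, so `(1±t)^(1+β) ≤ (1±t)(1±βt)` and
`(1+t)^(1+β) + (1-t)^(1+β) ≤ 2 + 2βt²`.  Moreover
`√((1+t)^(1+β)) √((1-t)^(1+β)) = √((1-t²)^(1+β)) ≤ √(1-t²) ≤ 1 - t²/2`
(`0 ≤ 1-t² ≤ 1`).  The left side is therefore at most
`(2-s)(1+βt²)/2 + (s/2)(1-t²/2) = 1 + t²((2-s)s/8 - s/4) = 1 - s²t²/8 ≤ 1`. -/
def S_N2 : Prop :=
  ∀ s a b : ℝ, 0 < s → s ≤ 1 → 0 ≤ a → 0 ≤ b →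
    ((2 - s) * (a ^ (1 + s / 4) + b ^ (1 + s / 4)) +
      2 * s * (√(a ^ (1 + s / 4)) * √(b ^ (1 + s / 4)))) / 4 ≤ ((a + b) / 2) ^ (1 + s / 4)

/-- N3: properties of the form `q`.

Proof.  By induction on `n` show first that `q s n` is bilinear and symmetric.  Then by induction
on `n`: `0 ≤ q s n f f` for all `f`; Cauchy-Schwarz `|q s n f g| ≤ √(q f f) √(q g g)` follows from
bilinearity, symmetry and positivity (discriminant).  Positivity at `n+1`: with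
`A = q (ev f) (ev f)`, `B = q (od f) (od f)`, `C = q (ev f) (od f)`, `|C| ≤ √A√B ≤ (A+B)/2`:
`4 q s (n+1) f f = (2-s)(A+B) + 2sC ≥ (2-s)(A+B) - s(A+B) = (2-2s)(A+B) ≥ 0`.
`q ≤ ip`: `4 q s (n+1) f f ≤ (2-s)(A+B) + s(A+B) = 2(A+B)` and
`ip (n+1) f f = (ip n (ev f)(ev f) + ip n (od f)(od f))/2` (reprove it or use `S_N1`).
The last equation is bilinearity and symmetry. -/
def S_N3 : Prop :=
  ∀ s : ℝ, 0 ≤ s → s ≤ 1 → ∀ (n : ℕ) (f g : ℕ → ℝ),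
    0 ≤ q s n f f ∧ q s n f g = q s n g f ∧ q s n f g ≤ √(q s n f f) * √(q s n g g) ∧
    q s n f f ≤ ip n f f ∧
    q s n (fun x => f x - g x) (fun x => f x - g x) = q s n f f - 2 * q s n f g + q s n g g

/-- N4 (from N1, N3).

Proof.  Induction on `n`.  `n = 0`: both sides are `f 0 ^ 2` (`num 0 f = 0`).
Step: put `e = ev f`, `o = od f`, `A = q s n e e`, `B = q s n o o`, `C = q s n e o`.  By N1
`ip (n+1) f f - s ip (n+1) f (num (n+1) f)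
  = ½ [(ip e e - s ip e (num e)) + (ip o o - s ip o (num o))] - (s/4) ip (e-o) (e-o)
  ≤ ½ (A + B) - (s/4) q (e-o) (e-o) = ½(A+B) - (s/4)(A - 2C + B) = ((2-s)(A+B) + 2sC)/4
  = q s (n+1) f f`
(induction hypothesis, `q ≤ ip` and the last part of N3; `q (o) (e) = C` by symmetry). -/
def S_N4 : Prop :=
  ∀ s : ℝ, 0 ≤ s → s ≤ 1 → ∀ (n : ℕ) (f : ℕ → ℝ),
    ip n f f - s * ip n f (num n f) ≤ q s n f f

/-- N5 (from N1, N2, N3): hypercontractivity for bounded functions.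

Proof.  Induction on `n`.  `n = 0`: `f 0 ^ 2 ≤ |f 0| ^ (1+s/4)` as `|f 0| ≤ 1` and `1 + s/4 ≤ 2`.
Step: `e = ev f`, `o = od f` (again bounded by `1` on `x < 2^n`), `A = q e e ≤ a^(1+s/4)`,
`B = q o o ≤ b^(1+s/4)` with `a = l1 n e`, `b = l1 n o`, `q e o ≤ √A √B`.  So
`q s (n+1) f f ≤ ((2-s)(A+B) + 2s√A√B)/4 ≤ ((2-s)(a^(..)+b^(..)) + 2s√(a^..)√(b^..))/4
 ≤ ((a+b)/2)^(1+s/4)` by N2, and `(a+b)/2 = l1 (n+1) f` by N1. -/
def S_N5 : Prop :=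
  ∀ s : ℝ, 0 < s → s ≤ 1 → ∀ (n : ℕ) (f : ℕ → ℝ), (∀ x < 2 ^ n, |f x| ≤ 1) →
    q s n f f ≤ (l1 n f) ^ (1 + s / 4)

/-- N6 (from N4, N5).

Proof.  Apply N4 and N5 to `f = u / K` (`fun x => u x / K`); `ip`, `num`, `l1` are homogeneous:
`ip f f = ip u u / K²`, `ip f (num f) = ip u (num u) / K²`, `l1 f = l1 u / K`. -/
def S_N6 : Prop :=
  ∀ s K : ℝ, 0 < s → s ≤ 1 → 0 < K → ∀ (n : ℕ) (u : ℕ → ℝ), (∀ x < 2 ^ n, |u x| ≤ K) →
    ip n u u ≤ s * ip n u (num n u) + K ^ 2 * (l1 n u / K) ^ (1 + s / 4)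

/-- N7: the solution of `u + r A u = φ` is bounded by `φ`.

Proof.  Note `x ^^^ 2^j < 2^n` for `x < 2^n`, `j < n` (`Nat.xor_lt_two_pow`).
First part: let `x < 2^n` maximise `|u x|`; let `σ = sign (u x)`.
`σ · num n u x = ∑_j (|u x| - σ u (x ^^^ 2^j))/2 ≥ 0`, so `|u x| = σ u x ≤ σ φ x ≤ K`.
Second part: `σ x = sign (u x)`.  `∑_{x<2^n} σ x φ x = ∑ |u x| + r ∑_j ∑_x (|u x| - σ x u (x ^^^ 2^j))/2
≥ ∑ |u x| + r ∑_j (∑_x |u x| - ∑_x |u (x ^^^ 2^j)|)/2 = ∑ |u x|`, because `x ↦ x ^^^ 2^j` is an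
involution of `range (2^n)` (`Finset.sum_nbij'` / `sum_involution`). -/
def S_N7 : Prop :=
  ∀ (n : ℕ) (u φ : ℕ → ℝ) (r K : ℝ), 0 < r → 0 < K → (∀ x < 2 ^ n, |φ x| ≤ K) →
    (∀ x < 2 ^ n, u x + r * num n u x = φ x) →
    (∀ x < 2 ^ n, |u x| ≤ K) ∧ l1 n u ≤ l1 n φ

/-- N8 (from N6, N7).

Proof.  By N7 `|u| ≤ K` and `l1 u ≤ l1 φ`.  `num n u x = (φ x - u x)/r` on `x < 2^n`, so
`ip u (num u) = (ip u φ - ip u u)/r ≤ ip u φ / r ≤ K l1 φ / r` (`ip u u ≥ 0`).  Put this in N6 and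
use that `t ↦ t^(1+s/4)` is monotone on `t ≥ 0`. -/
def S_N8 : Prop :=
  ∀ (n : ℕ) (u φ : ℕ → ℝ) (r K s : ℝ), 0 < r → 0 < K → 0 < s → s ≤ 1 →
    (∀ x < 2 ^ n, |φ x| ≤ K) → (∀ x < 2 ^ n, u x + r * num n u x = φ x) →
    ip n u u ≤ s / r * K * l1 n φ + K ^ 2 * (l1 n φ / K) ^ (1 + s / 4)

/-! ### abstract resolvents -/

/-- the properties of the resolvents `R k = (1 + 4⁻ᵏ A)⁻¹` -/
structure Fam {B : Type} [NormedAddCommGroup B] [NormedSpace ℝ B] (R : ℕ → B →L[ℝ] B) :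
    Prop where
  norm : ∀ k, ‖R k‖ ≤ 1
  comm : ∀ k l, R k * R l = R l * R k
  step : ∀ k, R (k + 1) - R k = (3 : ℝ) • (R k * (1 - R (k + 1)))
  dec : ∀ j d, (1 - R (j + d + 1)) * R j =
    (1 / 4 : ℝ) ^ (d + 1) • (R (j + d + 1) * (1 - R j))
  lim : ∀ g, Tendsto (fun k => R k g) atTop (𝓝 g)

/-- commuting contractions, almost all of which fix a given element of a dense set -/
structure Avs {B : Type} [NormedAddCommGroup B] [NormedSpace ℝ B] (Av : ℕ → B →L[ℝ] B) :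
    Prop where
  norm : ∀ i, ‖Av i‖ ≤ 1
  comm : ∀ i j, Av i * Av j = Av j * Av i
  dens : Dense {g : B | ∃ m, ∀ i, m ≤ i → Av i g = g}

/-- `R` is the family of the resolvents of `∑ (1 - Av i)` -/
structure Res {B : Type} [NormedAddCommGroup B] [NormedSpace ℝ B] (Av R : ℕ → B →L[ℝ] B) :
    Prop where
  fam : Fam R
  comm : ∀ k i, R k * Av i = Av i * R k
  inv : ∀ (k : ℕ) (W : Submodule ℝ B), IsClosed (W : Set B) →
    (∀ i, ∀ g ∈ W, Av i g ∈ W) → ∀ g ∈ W, R k g ∈ W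
  loc : ∀ (k m : ℕ) (g : B), (∀ i, m ≤ i → Av i g = g) →
    R k g + (1 / 4 : ℝ) ^ k • ∑ i ∈ range m, (R k g - Av i (R k g)) = g

/-- A0: strong limits of contractions.

Proof.  For every `g` the sequence `T n g` is Cauchy: given `ε` choose `h ∈ D` with
`‖g - h‖ < ε/3`; `‖T n g - T m g‖ ≤ 2‖g - h‖ + ‖T n h - T m h‖`.  So it converges (complete); the
pointwise limit is linear and bounded by `1` (`continuousLinearMapOfTendsto`-like, or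
`LinearMap.mkContinuous`). -/
def S_A0 : Prop :=
  ∀ (B : Type) [NormedAddCommGroup B] [NormedSpace ℝ B] [CompleteSpace B]
    (T : ℕ → B →L[ℝ] B) (D : Set B), (∀ n, ‖T n‖ ≤ 1) → Dense D →
    (∀ g ∈ D, ∃ h, Tendsto (fun n => T n g) atTop (𝓝 h)) →
    ∃ S : B →L[ℝ] B, ‖S‖ ≤ 1 ∧ ∀ g, Tendsto (fun n => T n g) atTop (𝓝 (S g))

/-- A1: the resolvent at one level.

Proof.  Put `a = 1 + r n`, `M = r • ∑_{i<n} Av i`, `‖M‖ ≤ r n < a`.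
`1 + r ∑ (1 - Av i) = a - M = a (1 - M/a)`.  Neumann series: `S = a⁻¹ ∑_m (M/a)^m`
(`tsum`, `NormedRing.inverse`, geometric series in the complete ring `B →L B`), norm
`≤ a⁻¹ / (1 - rn/a) = 1` (if `B` is trivial everything is clear; do not use `NormOneClass`:
estimate `‖S g‖ ≤ ∑ a⁻¹ (rn/a)^m ‖g‖`).  `W` is invariant under `M`, hence under all `M^m`, under
partial sums, and under the limit since it is closed. -/
def S_A1 : Prop :=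
  ∀ (B : Type) [NormedAddCommGroup B] [NormedSpace ℝ B] [CompleteSpace B]
    (Av : ℕ → B →L[ℝ] B), (∀ i, ‖Av i‖ ≤ 1) → ∀ (r : ℝ) (n : ℕ), 0 ≤ r →
    ∃ S : B →L[ℝ] B, ‖S‖ ≤ 1 ∧ S * (1 + r • ∑ i ∈ range n, (1 - Av i)) = 1 ∧
      (1 + r • ∑ i ∈ range n, (1 - Av i)) * S = 1 ∧
      ∀ W : Submodule ℝ B, IsClosed (W : Set B) → (∀ i, ∀ g ∈ W, Av i g ∈ W) →
        ∀ g ∈ W, S g ∈ W

/-- A2 (from A0, A1): the resolvents.

Proof.  For `k, n` let `S k n` be the operator of A1 with `r = 4⁻ᵏ`, and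
`A n = ∑_{i<n} (1 - Av i)`.  `S k n` is the two-sided inverse of `1 + 4⁻ᵏ A n`, so it commutes with
everything that commutes with `A n`: with all `Av i` and all `S l m`.
If `Av i g = g` for all `i ≥ m`, then for `n ≥ m`: `S k n g = S k m g`, because
`(1 + 4⁻ᵏ A n)(S k m g) = (1 + 4⁻ᵏ A m)(S k m g) + 4⁻ᵏ ∑_{m≤i<n} S k m (g - Av i g) = g`.  So
`S k n g` converges on the dense set; A0 gives `R k` with `R k g = lim S k n g`, and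
`R k g = S k m g` for such `g` (call them of level `m`; `S k m g`, `Av i g` are again of level `m`).
All operator identities are checked for `g` of level `m` (dense set, continuous operators:
`ContinuousLinearMap.ext` + `Dense.induction`/`Continuous.ext_on`) with the commuting inverses
`S k m`: with `r_k = 4⁻ᵏ`, `A = A m`, `S_k = (1 + r_k A)⁻¹`:
comm: clear; step: `S_{k+1} - S_k = S_k S_{k+1} (r_k - r_{k+1}) A = 3 S_k (r_{k+1} A S_{k+1})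
= 3 S_k (1 - S_{k+1})`; dec: `(1 - S_{j+d+1}) S_j = r_{j+d+1} A S_{j+d+1} S_j
= 4^{-(d+1)} S_{j+d+1} (r_j A S_j) = 4^{-(d+1)} S_{j+d+1} (1 - S_j)`.
`inv`: `R k g` is the limit of `S k n g ∈ W`.  `loc`: `(1 + 4⁻ᵏ A m) S k m g = g`.
`lim`: for `g` of level `m`, `g - R k g = 4⁻ᵏ S k m (A m g) → 0`; the operators are contractions and
the set is dense. -/
def S_A2 : Prop :=
  ∀ (B : Type) [NormedAddCommGroup B] [NormedSpace ℝ B] [CompleteSpace B]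
    (Av : ℕ → B →L[ℝ] B), Avs Av → ∃ R : ℕ → B →L[ℝ] B, Res Av R

/-- the operators `U k` -/
noncomputable def Uo {B : Type} [NormedAddCommGroup B] [NormedSpace ℝ B]
    (R : ℕ → B →L[ℝ] B) : ℕ → B →L[ℝ] B
  | 0 => 1
  | k + 1 => (2 : ℝ) ^ k • (1 - R (k + 1))

/-- the operators `V k` -/
noncomputable def Vo {B : Type} [NormedAddCommGroup B] [NormedSpace ℝ B]
    (R : ℕ → B →L[ℝ] B) : ℕ → B →L[ℝ] B
  | 0 => R 0
  | k + 1 => (3 * (1 / 2 : ℝ) ^ k) • R k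

/-- bound for the norm of `U i * V j` -/
noncomputable def cc : ℕ → ℕ → ℝ
  | 0, 0 => 1
  | 0, j + 1 => 3 * (1 / 2) ^ j
  | i + 1, 0 => (1 / 2) ^ (i + 1)
  | i + 1, j + 1 => if i < j then 6 * (1 / 2) ^ (j - i) else 3 / 2 * (1 / 2) ^ (i - j)

/-- A3: operators from an `ℓ₁`-sum.

Proof.  `∑ ‖T j (F j)‖ ≤ C ∑ ‖F j‖ = C ‖F‖` (`lp.norm_eq_tsum_rpow` at `p = 1`, `memℓp_gen_iff`), so
`∑ T j (F j)` is absolutely summable in the complete space `Z`; `S F = ∑' T j (F j)`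
(`LinearMap.mkContinuous`).  Note `0 ≤ C`. -/
def S_A3 : Prop :=
  ∀ (B Z : Type) [NormedAddCommGroup B] [NormedSpace ℝ B] [NormedAddCommGroup Z]
    [NormedSpace ℝ Z] [CompleteSpace Z] (T : ℕ → B →L[ℝ] Z) (C : ℝ), (∀ j, ‖T j‖ ≤ C) →
    ∃ S : Y B →L[ℝ] Z, ‖S‖ ≤ C ∧ ∀ F : Y B, HasSum (fun j => T j (F j)) (S F)

/-- A4: operators into an `ℓ₁`-sum.

Proof.  `(T i g)_i` is in `ℓ₁` with norm `≤ C ‖g‖` (bounded partial sums of nonnegative terms: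
`summable_of_sum_range_le`, `Real.tsum_le_of_sum_range_le`); linear in `g`. -/
def S_A4 : Prop :=
  ∀ (A B : Type) [NormedAddCommGroup A] [NormedSpace ℝ A] [NormedAddCommGroup B]
    [NormedSpace ℝ B] (T : ℕ → A →L[ℝ] B) (C : ℝ), 0 ≤ C →
    (∀ (g : A) (N : ℕ), ∑ i ∈ range N, ‖T i g‖ ≤ C * ‖g‖) →
    ∃ S : A →L[ℝ] Y B, ‖S‖ ≤ C ∧ ∀ (g : A) (i : ℕ), (S g) i = T i g

/-- A5: the norms of `U i * V j`.

Proof.  `‖R k‖ ≤ 1`, `‖1 - R k‖ ≤ 2`.  `U 0 V 0 = R 0`; `U 0 V (j+1) = 3 2⁻ʲ R j`;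
`U (i+1) V 0 = 2ⁱ (1 - R (i+1)) R 0 = 2ⁱ 4^{-(i+1)} R (i+1) (1 - R 0)` (`dec` with `j = 0, d = i`):
norm `≤ 2ⁱ 4^{-(i+1)} 2 = 2^{-(i+1)}`.
`U (i+1) V (j+1) = 3 · 2^{i-j} (1 - R (i+1)) R j`: for `i < j` norm `≤ 3 · 2^{i-j} · 2`; for
`i ≥ j` use `dec` with `d = i - j`: norm `≤ 3 · 2^{i-j} · 4^{-(i-j+1)} · 2 = (3/2) 2^{-(i-j)}`.
(`‖1‖ ≤ 1` also if `B` is trivial: `ContinuousLinearMap.norm_id_le`.)
Column sums: `j = 0`: `1 + ∑ 2^{-(i+1)} = 2`; `j+1`: `3·2⁻ʲ + ∑_{i<j} 6·2^{-(j-i)} + ∑_{i≥j} (3/2) 2^{-(i-j)}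
= 3·2⁻ʲ + 6(1 - 2⁻ʲ) + 3 ≤ 9 ≤ 12`. -/
def S_A5 : Prop :=
  (∀ (B : Type) [NormedAddCommGroup B] [NormedSpace ℝ B] (R : ℕ → B →L[ℝ] B), Fam R →
    ∀ i j, ‖Uo R i * Vo R j‖ ≤ cc i j) ∧
  ∀ j, Summable (fun i => cc i j) ∧ ∑' i, cc i j ≤ 12

/-- A6: `∑ V k U k = 1`.

Proof.  `V 0 U 0 = R 0`, `V (k+1) U (k+1) = 3 R k (1 - R (k+1)) = R (k+1) - R k` (`step`), so
`∑_{j<N+1} V j (F j) = R N g → g` (`lim`).  The series is absolutely convergent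
(`‖Vo R j‖ ≤ 3`, `F ∈ ℓ₁`), so `HasSum` follows from `hasSum_of_subseq_of_summable`
(completeness is not needed). -/
def S_A6 : Prop :=
  ∀ (B : Type) [NormedAddCommGroup B] [NormedSpace ℝ B] (R : ℕ → B →L[ℝ] B), Fam R →
    ∀ (F : Y B) (g : B), (∀ k, F k = Uo R k g) → HasSum (fun j => Vo R j (F j)) g

/-- A7 (from A3 - A6): the projection.

Proof.  By A4 and A5 there are `T j : B →L Y B`, `T j g = (U i V j g)_i`, `‖T j‖ ≤ 12`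
(`∑_{i<N} ‖U i V j g‖ ≤ ∑_{i<N} cc i j ‖g‖ ≤ 12 ‖g‖`, `0 ≤ cc i j`).  By A3 there is
`P : Y B →L Y B` with `P F = ∑ T j (F j)` (`Y B` is complete).  Evaluation at `k` is continuous, so
`(P F) k = ∑ U k V j F j = U k (∑ V j F j)` (the inner series converges absolutely, `‖V j‖ ≤ 3`).
`P P = P`: with `h = ∑' V j (F j)`, `G = P F` we have `G k = U k h`, so by A6 `∑' V j (G j) = h`,
hence `(P G) k = U k h = G k`. -/
def S_A7 : Prop :=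
  ∀ (B : Type) [NormedAddCommGroup B] [NormedSpace ℝ B] [CompleteSpace B]
    (R : ℕ → B →L[ℝ] B), Fam R →
    ∃ P : Y B →L[ℝ] Y B, P * P = P ∧
      ∀ (F : Y B) (k : ℕ), (P F) k = Uo R k (∑' j, Vo R j (F j))

/-- A8: elements of the space from eigenvectors of `A`.

Proof.  `U 0 g = g`, `U (k+1) g = 2ᵏ (1 - (1 + d 4^{-(k+1)})⁻¹) g = (2ᵏ d / (4^{k+1} + d)) g`.
It remains to show `∑_k 2ᵏ d / (4^{k+1} + d) ≤ 2√d` (as `1 ≤ √d`).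
Let `K` be the number of `k` with `2^{k+1} ≤ √d` (these are `k < K`): for them the term is `≤ 2ᵏ`,
sum `≤ 2^K - 1 ≤ √d` (indeed `2^K ≤ √d` if `K > 0`).  For `k ≥ K`: the term is
`≤ d 2ᵏ / 4^{k+1} = (d/4) 2⁻ᵏ`, sum `≤ (d/4) · 2 · 2^{-K} = (d/2) 2^{-K} ≤ √d` as `2^{K+1} > √d`.
So `‖F‖ ≤ (1 + 2√d) ‖g‖ ≤ 3√d ‖g‖`.  (Any other proof of the bound is fine.) -/
def S_A8 : Prop :=
  ∀ (B : Type) [NormedAddCommGroup B] [NormedSpace ℝ B] (R : ℕ → B →L[ℝ] B) (d : ℝ) (g : B),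
    1 ≤ d → (∀ k, R k g = (1 + d * (1 / 4) ^ k)⁻¹ • g) →
    ∃ F : Y B, (∀ k, F k = Uo R k g) ∧ ‖F‖ ≤ 3 * √d * ‖g‖

/-! ### `L₁[0,1]` -/

/-- the function on `[0,1)` with the value `f x` on the `x`-th dyadic interval of level `n` -/
noncomputable def cyl (n : ℕ) (f : ℕ → ℝ) (t : ℝ) : ℝ := f ⌊2 ^ n * t⌋₊

theorem cyl_meas (n : ℕ) (f : ℕ → ℝ) : Measurable (cyl n f) := by
  unfold cyl
  exact (measurable_from_nat (f := f)).comp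
    (Nat.measurable_floor.comp (measurable_const.mul measurable_id))

theorem cyl_bdd (n : ℕ) (f : ℕ → ℝ) (t : ℝ) (ht : t ≤ 1) :
    ‖cyl n f t‖ ≤ ∑ x ∈ range (2 ^ n + 1), |f x| := by
  unfold cyl
  rw [Real.norm_eq_abs]
  have h : ⌊2 ^ n * t⌋₊ ∈ range (2 ^ n + 1) := by
    rw [mem_range, Nat.lt_succ_iff]
    have h1 : (2 : ℝ) ^ n * t ≤ ((2 ^ n : ℕ) : ℝ) := by
      push_cast
      exact mul_le_of_le_one_right (by positivity) ht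
    calc ⌊2 ^ n * t⌋₊ ≤ ⌊((2 ^ n : ℕ) : ℝ)⌋₊ := Nat.floor_le_floor h1
      _ = 2 ^ n := Nat.floor_natCast _
  exact single_le_sum (f := fun x => |f x|) (fun x _ => abs_nonneg _) h

theorem cyl_memLp (n : ℕ) (f : ℕ → ℝ) : MemLp (cyl n f) 1 lam := by
  refine MemLp.of_bound (cyl_meas n f).aestronglyMeasurable
    (∑ x ∈ range (2 ^ n + 1), |f x|) ?_
  filter_upwards [ae_restrict_mem measurableSet_Icc] with t ht
  exact cyl_bdd n f t ht.2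

/-- the cylinder function as an element of `L₁[0,1]` -/
noncomputable def cylL (n : ℕ) (f : ℕ → ℝ) : E := (cyl_memLp n f).toLp (cyl n f)

/-- flip of the `i`-th binary digit -/
noncomputable def flip (i : ℕ) (t : ℝ) : ℝ :=
  if Even ⌊2 ^ (i + 1) * t⌋ then t + (1 / 2) ^ (i + 1) else t - (1 / 2) ^ (i + 1)

/-- M1: the elements `cylL n f`.

Proof.  1, 2: `cyl` is pointwise linear.  3: `‖cylL n f‖ = ∫_{[0,1]} |f ⌊2ⁿt⌋₊| dt
= ∑_{x<2ⁿ} ∫_{[x/2ⁿ,(x+1)/2ⁿ)} |f x| = l1 n f` (the point `t = 1` is a null set).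
4: by 1-3 it is enough that `l1 n (f - g) = 0 ↔ ∀ x < 2ⁿ, f x = g x`.
5: `⌊2^{n+1}t⌋₊ / 2 = ⌊2ⁿt⌋₊` (`Nat.floor_div_natCast`). -/
def S_M1 : Prop :=
  (∀ (n : ℕ) (f g : ℕ → ℝ), cylL n (fun x => f x + g x) = cylL n f + cylL n g) ∧
  (∀ (n : ℕ) (c : ℝ) (f : ℕ → ℝ), cylL n (fun x => c * f x) = c • cylL n f) ∧
  (∀ (n : ℕ) (f : ℕ → ℝ), ‖cylL n f‖ = l1 n f) ∧
  (∀ (n : ℕ) (f g : ℕ → ℝ), (∀ x < 2 ^ n, f x = g x) ↔ cylL n f = cylL n g) ∧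
  ∀ (n : ℕ) (f : ℕ → ℝ), cylL (n + 1) (fun x => f (x / 2)) = cylL n f

/-- M2: the flips preserve Lebesgue measure on `[0,1]`.

Proof.  `flip i` is measurable.  `lam = volume.restrict [0,1)` (the point `1` is null:
`restrict_congr_set Ico_ae_eq_Icc`).  On `ℝ`, `flip i` is an involution which maps `[0,1)` to itself and
interchanges `[2j·h, (2j+1)·h)` and `[(2j+1)·h, (2j+2)·h)`, `h = 2^{-(i+1)}`, by translation.  So for
measurable `A`: `flip⁻¹ A ∩ [0,1) = ⋃_j (A ∩ J_{2j+1} - h) ∪ (A ∩ J_{2j} + h)`, disjoint union over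
`j < 2ⁱ`, where `J_x = [xh,(x+1)h)`; its volume is `∑_x vol (A ∩ J_x) = vol (A ∩ [0,1))`.
(Alternative: `flip i` is a measure preserving involution of `ℝ`: write it as a piecewise
translation over the two sets `Even ⌊2^(i+1) t⌋` and its complement, which are interchanged.) -/
def S_M2 : Prop := ∀ i : ℕ, MeasurePreserving (flip i) lam lam

/-- M3: flips and cylinder functions.

Proof.  Let `x = ⌊2ⁿt⌋₊ < 2ⁿ`, `y = ⌊2^{i+1}t⌋₊` (all floors are of nonnegative numbers, so the integer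
floor is the cast of the natural one).  `i < n`: `y = x / 2^{n-1-i}` (`Nat.floor_div_natCast`), so `y` is even
iff the bit `n-1-i` of `x` is `0`; then `2ⁿ flip i t = 2ⁿt + 2^{n-1-i}` has floor
`x + 2^{n-1-i} = x ^^^ 2^{n-1-i}` (bit is `0`); if the bit is `1` the floor is
`x - 2^{n-1-i} = x ^^^ 2^{n-1-i}`.
`n ≤ i`: `x = y / 2^{i+1-n}` and `⌊2^{i+1} flip i t⌋₊ = y + 1` (`y` even) or `y - 1` (`y` odd); in both
cases division by `2^{i+1-n}` (an even number) gives `x` again. -/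
def S_M3 : Prop :=
  ∀ (i n : ℕ) (f : ℕ → ℝ) (t : ℝ), 0 ≤ t → t < 1 →
    (i < n → cyl n f (flip i t) = cyl n (fun x => f (x ^^^ 2 ^ (n - 1 - i))) t) ∧
    (n ≤ i → cyl n f (flip i t) = cyl n f t)

/-- M4: density.

Proof.  Continuous functions are dense in `L₁[0,1]` (`MeasureTheory.Lp.boundedContinuousFunction_dense`,
`MemLp.exists_boundedContinuous_eLpNorm_sub_le`); a continuous function `g` on `[0,1]` is uniformly
continuous, so `|g t - g (⌊2ⁿt⌋₊/2ⁿ)| ≤ ε` for all `t ∈ [0,1]` if `n` is large; take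
`f x = g (x/2ⁿ)`. -/
def S_M4 : Prop := Dense {g : E | ∃ (n : ℕ) (f : ℕ → ℝ), g = cylL n f}

/-- M5 (from M4): bounded approximation.

Proof.  Choose `n, f₀` with `‖g - cylL n f₀‖ ≤ ε` (M4) and put `f x = max (-K) (min K (f₀ x))`.
Almost everywhere `|g t| ≤ K`, so `|g t - f ⌊2ⁿt⌋₊| ≤ |g t - f₀ ⌊2ⁿt⌋₊|` (clamping is a contraction
fixing `g t`); the norm is monotone (`Lp.norm_le_norm_of_ae_le`). -/
def S_M5 : Prop :=
  ∀ (g : E) (K : ℝ), 0 < K → (∀ᵐ t ∂lam, |g t| ≤ K) → ∀ ε > 0,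
    ∃ (n : ℕ) (f : ℕ → ℝ), (∀ x, |f x| ≤ K) ∧ ‖g - cylL n f‖ ≤ ε

/-- M6 (from M1 - M4): the averages.

Proof.  `C i g = g ∘ flip i` is a linear isometry of `E` (`Lp.compMeasurePreservingₗᵢ`, M2), put
`Av i = (1/2) (1 + C i)`; norm `≤ 1`.  By M3 `C i (cylL n f) = cylL n (f (· ^^^ 2^(n-1-i)))` for `i < n`
and `= cylL n f` for `n ≤ i` (a.e. equality, `t < 1` a.e.), which gives the two formulas.
`comm`: on `cylL n f` with `n > i, j` (raise the level with the last part of M1) both sides are `cylL n`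
of a double average, and xor is commutative; then density M4.  `dens`: the set contains the dense set
of M4. -/
def S_M6 : Prop :=
  ∃ Av : ℕ → E →L[ℝ] E, Avs Av ∧
    (∀ (i n : ℕ) (f : ℕ → ℝ), i < n → Av i (cylL n f) = cylL n (avg (n - 1 - i) f)) ∧
    ∀ (i n : ℕ) (f : ℕ → ℝ), n ≤ i → Av i (cylL n f) = cylL n f

/-- M7: scaling to the intervals `(2⁻ᵏ⁻¹, 2⁻ᵏ]`.

Proof.  `(T k g)(t) = 2^{k+1} g(2^{k+1}t - 1)` for `t ∈ I_k = (2^{-k-1}, 2^{-k}]` and `0` otherwise;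
`(T' k g)(t) = 2^{-(k+1)} g((1+t) 2^{-(k+1)})`.  Both are well defined on classes (quasi measure
preserving), linear, `‖T k g‖ = ‖g‖` and `‖T' k g‖ = ∫_{I_k} |g|` by the substitution
`s = 2^{k+1} t - 1`, so `∑_{k<N} ‖T' k g‖ ≤ ‖g‖` (disjoint intervals).  `T' k (T k g) = g`;
`T' k (T l g) = 0` for `k ≠ l`.
(A different choice of disjoint pieces of `[0,1]` of the same kind is fine.) -/
def S_M7 : Prop :=
  ∃ T T' : ℕ → E →L[ℝ] E, (∀ k, ‖T k‖ ≤ 1) ∧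
    (∀ (g : E) (N : ℕ), ∑ k ∈ range N, ‖T' k g‖ ≤ ‖g‖) ∧
    ∀ k l g, T' k (T l g) = if k = l then g else 0

/-- M8 (from M7, A3, A4): `ℓ₁(L₁)` embeds complementably into `L₁`.

Proof.  `J F = ∑ T l (F l)` (A3), `Q g = (T' k g)_k` (A4).  `(Q (J F)) k = T' k (∑ T l (F l)) = F k`. -/
def S_M8 : Prop := ∃ (J : Y E →L[ℝ] E) (Q : E →L[ℝ] Y E), ∀ F, Q (J F) = F

/-- M9: integrals over dyadic intervals.

Proof.  `c x g = ∫_{[x/2ⁿ,(x+1)/2ⁿ)} g`.  `∑_{x<2ⁿ} |c x g| ≤ ∑ ∫_{I_x} |g| ≤ ‖g‖` (disjoint subsets of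
`[0,1)`).  The interval `x` of level `n` is the disjoint union of the intervals `x 2^m + y`, `y < 2^m`, of
level `n + m`, each of measure `2^{-(n+m)}`. -/
def S_M9 : Prop :=
  ∀ n : ℕ, ∃ c : ℕ → E →L[ℝ] ℝ, (∀ g : E, ∑ x ∈ range (2 ^ n), |c x g| ≤ ‖g‖) ∧
    ∀ (m : ℕ) (f : ℕ → ℝ), ∀ x < 2 ^ n,
      c x (cylL (n + m) f) = (∑ y ∈ range (2 ^ m), f (x * 2 ^ m + y)) / 2 ^ (n + m)

/-- averages over the binary digits on `L₁[0,1]`, resolvents -/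
structure Dat (Av R : ℕ → E →L[ℝ] E) : Prop where
  avs : Avs Av
  cyl1 : ∀ (i n : ℕ) (f : ℕ → ℝ), i < n → Av i (cylL n f) = cylL n (avg (n - 1 - i) f)
  cyl2 : ∀ (i n : ℕ) (f : ℕ → ℝ), n ≤ i → Av i (cylL n f) = cylL n f
  res : Res Av R

/-- Rademacher average of `f 0, …, f (N-1)` -/
noncomputable def rad {Z : Type} [NormedAddCommGroup Z] [NormedSpace ℝ Z] (N : ℕ)
    (f : ℕ → Z) : ℝ :=
  (∑ S ∈ (range N).powerset, ‖∑ i ∈ range N, (if i ∈ S then (1 : ℝ) else -1) • f i‖) / 2 ^ N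

/-- S1: Rademacher averages.

Proof.  Every summand is `≥ 0`, `≤ ∑ ‖f i‖`, subadditive, and
`‖∑ ± T (f i)‖ = ‖T (∑ ± f i)‖ ≤ ‖T‖ ‖∑ ± f i‖`; there are `2^N` summands (`card_powerset`). -/
def S_S1 : Prop :=
  ∀ (Z : Type) [NormedAddCommGroup Z] [NormedSpace ℝ Z] (N : ℕ) (f g : ℕ → Z),
    0 ≤ rad N f ∧ rad N f ≤ ∑ i ∈ range N, ‖f i‖ ∧
    rad N (fun i => f i + g i) ≤ rad N f + rad N g ∧
    (∀ (Z' : Type) [NormedAddCommGroup Z'] [NormedSpace ℝ Z'] (T : Z →L[ℝ] Z'),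
      rad N (fun i => T (f i)) ≤ ‖T‖ * rad N f) ∧
    ∀ θ : ℝ, (∀ S ⊆ range N, θ ≤ ‖∑ i ∈ range N, (if i ∈ S then (1 : ℝ) else -1) • f i‖) →
      θ ≤ rad N f

/-- S2 (from M1): Rademacher averages of cylinder functions.

Proof.  With `ε_S i = ±1`: `∑ ε_S i • cylL n (u i) = cylL n (∑ ε_S i * u i)` has norm
`l1 n (∑ ε_S i u i) ≤ √(ip n w w)`, `w = ∑_i ε_S i u i` (Cauchy-Schwarz over the `2ⁿ` points).  By Jensen
(Cauchy-Schwarz over the `2^N` sets) the average over `S` is at most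
`√(2^{-N} ∑_S ip n w_S w_S) = √(∑_i ip n (u i) (u i))`, since
`∑_S ε_S i ε_S j = 0` for `i ≠ j < N` (involution: toggle `i`) and `= 2^N` for `i = j`. -/
def S_S2 : Prop :=
  ∀ (n N : ℕ) (u : ℕ → ℕ → ℝ), rad N (fun i => cylL n (u i)) ≤
    √(∑ i ∈ range N, ip n (u i) (u i))

/-- S3 (from M1): the resolvent of a cylinder function.

Proof.  `W = {cylL n f}` is a submodule (M1); it is finite dimensional (image of
`(Fin (2^n) → ℝ)`, by M1 `cylL n f` depends only on `f x`, `x < 2^n`), so closed; it is invariant under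
all `Av i` (`cyl1`, `cyl2`), so by `Res.inv` `R k (cylL n φ) = cylL n u`.  `Res.loc` with `m = n`:
`R k g + 4⁻ᵏ ∑_{i<n} (R k g - Av i (R k g)) = g`, `g = cylL n φ`; the left side is
`cylL n (u + 4⁻ᵏ ∑_{i<n} (u - avg (n-1-i) u)) = cylL n (u + 4⁻ᵏ num n u)` (reflect the sum:
`Finset.sum_range_reflect`).  Use the fourth part of M1. -/
def S_S3 : Prop :=
  ∀ Av R : ℕ → E →L[ℝ] E, Dat Av R → ∀ (k n : ℕ) (φ : ℕ → ℝ), ∃ u : ℕ → ℝ,
    R k (cylL n φ) = cylL n u ∧ ∀ x < 2 ^ n, u x + (1 / 4 : ℝ) ^ k * num n u x = φ x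

/-- S4 (from M1, S2, S3, N8): singularity on cylinder functions.

Proof.  Put `r = 4⁻ᵏ`; choose `s ∈ (0,1]` with `(s/r) K M ≤ δ²/2` and then `η > 0` with
`K M (η/K)^(s/4) ≤ δ²/2`.  With `a i = ‖cylL n (φ i)‖ = l1 n (φ i) ≤ η` and `R k (cylL n (φ i)) = cylL n (u i)`
(S3) N8 gives `ip (u i) (u i) ≤ (s/r) K (a i) + K² (a i/K)^(1+s/4)
≤ (s/r) K (a i) + K (a i) (η/K)^(s/4)`.  Sum over `i < N`: `≤ δ²`; S2 gives `rad ≤ √(δ²) = δ`. -/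
def S_S4 : Prop :=
  ∀ Av R : ℕ → E →L[ℝ] E, Dat Av R → ∀ (k : ℕ) (K M δ : ℝ), 0 < K → 0 < M → 0 < δ →
    ∃ η > 0, ∀ (n N : ℕ) (φ : ℕ → ℕ → ℝ), (∀ i x, |φ i x| ≤ K) →
      (∀ i < N, ‖cylL n (φ i)‖ ≤ η) → ∑ i ∈ range N, ‖cylL n (φ i)‖ ≤ M →
      rad N (fun i => R k (cylL n (φ i))) ≤ δ

/-- S5 (from M1, M5, S1, S4): singularity on bounded functions.

Proof.  Take `η₀` from S4 for `K, M + 1, δ/2` and put `η = η₀/2`.  Given `N, f` let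
`ε = min (η₀/2) (min (δ/2) 1) / (N + 1)`; by M5 there are `n i`, `φ i` with `|φ i x| ≤ K` and
`‖f i - cylL (n i) (φ i)‖ ≤ ε`; raise all levels to a common one (last part of M1, iterated; the
bound is kept).  Then `‖cylL n (φ i)‖ ≤ η + ε ≤ η₀`, the sum is `≤ M + N ε ≤ M + 1`, so
`rad (R k (cylL n (φ i))) ≤ δ/2`, and `rad N (R k (f i)) ≤ δ/2 + rad N (R k (f i - cylL n (φ i)))
≤ δ/2 + N ε ≤ δ` (S1, `‖R k‖ ≤ 1` from `Dat.res.fam.norm`). -/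
def S_S5 : Prop :=
  ∀ Av R : ℕ → E →L[ℝ] E, Dat Av R → ∀ (k : ℕ) (K M δ : ℝ), 0 < K → 0 < M → 0 < δ →
    ∃ η > 0, ∀ (N : ℕ) (f : ℕ → E), (∀ i, ∀ᵐ t ∂lam, |f i t| ≤ K) →
      (∀ i < N, ‖f i‖ ≤ η) → ∑ i ∈ range N, ‖f i‖ ≤ M →
      rad N (fun i => R k (f i)) ≤ δ

/-- a tree in `Z` with bound `M` -/
structure Tree {Z : Type} [NormedAddCommGroup Z] (T : ℕ → ℕ → Z) (M : ℝ) : Prop where
  split : ∀ n i, i < 2 ^ n → T n i = T (n + 1) (2 * i) + T (n + 1) (2 * i + 1)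
  bdd : ∀ n, ∑ i ∈ range (2 ^ n), ‖T n i‖ ≤ M
  small : ∀ η > 0, ∃ n₀, ∀ n ≥ n₀, ∀ i < 2 ^ n, ‖T n i‖ ≤ η

/-- S6: uniform integrability of a tree in `L₁`: truncation.

Proof.  `H n = ∑_{i<2ⁿ} |T n i|` (pointwise a.e.) is increasing in `n` (`split`, triangle inequality)
and `∫ H n = ∑ ‖T n i‖ ≤ M`.  Choose `n₀` with `∫ H n ≤ ∫ H n₀ + ε/2` for all `n ≥ n₀` (bounded increasing
sequence), then `K > 0` with `∫ (H n₀ - K)⁺ ≤ ε/2` (dominated convergence, `K → ∞` through `ℕ`).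
For `n ≥ n₀` let `f i = max (-K) (min K (T n i))` for `i < 2ⁿ`, `f i = 0` otherwise:
`|f i| ≤ K`, `|f i| ≤ |T n i|`, `|T n i - f i| = (|T n i| - K)⁺`.  For `a i ≥ 0`:
`∑ (a i - K)⁺ ≤ (∑ a i - K)⁺`, so `∑ ‖T n i - f i‖ ≤ ∫ (H n - K)⁺ ≤ ∫ (H n - H n₀) + ∫ (H n₀ - K)⁺ ≤ ε`
(`(a - K)⁺ ≤ (a - b) + (b - K)⁺` for `b ≤ a`). -/
def S_S6 : Prop :=
  ∀ (T : ℕ → ℕ → E) (M : ℝ), Tree T M → ∀ ε > 0, ∃ (K : ℝ) (_ : 0 < K) (n₀ : ℕ),
    ∀ n ≥ n₀, ∃ f : ℕ → E, (∀ i, ∀ᵐ t ∂lam, |f i t| ≤ K) ∧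
      (∀ i < 2 ^ n, ‖f i‖ ≤ ‖T n i‖) ∧ ∑ i ∈ range (2 ^ n), ‖T n i - f i‖ ≤ ε

/-- S7 (from S1, S5, S6): the resolvents are singular on trees.

Proof.  Given `δ > 0` take `K, n₀` from S6 with `ε = δ/2`, `η` from S5 with `K`, `M' = max M 1`, `δ/2`, and
`n₁ ≥ n₀` with `‖T n i‖ ≤ η` for `n ≥ n₁`, `i < 2ⁿ`.  For `n ≥ n₁` and the `f` of S6:
`rad (2ⁿ) (R k (T n i)) ≤ rad (R k (f i)) + rad (R k (T n i - f i)) ≤ δ/2 + ∑ ‖T n i - f i‖ ≤ δ`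
(`‖R k‖ ≤ 1`).  And `0 ≤ rad`. -/
def S_S7 : Prop :=
  ∀ Av R : ℕ → E →L[ℝ] E, Dat Av R → ∀ (k : ℕ) (T : ℕ → ℕ → E) (M : ℝ), Tree T M →
    Tendsto (fun n => rad (2 ^ n) (fun i => R k (T n i))) atTop (𝓝 0)

/-- S9: trees in `ℓ₁`-sums, dominated convergence.

Proof.  For a vector `F = (F γ)` in the `ℓ₁`-sum `‖F‖ = ∑_γ ‖F γ‖`, so (finite sums and `tsum`
commute, everything is summable) `rad (2ⁿ) (T n) = ∑'_γ rad (2ⁿ) (fun i => S γ (T n i γ))`-like: precisely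
`rad (2ⁿ) (fun i => F n i) = ∑'_γ rad (2ⁿ) (fun i => (F n i) γ)`.
`h n γ = ∑_{i<2ⁿ} ‖(F n i) γ‖` is increasing in `n` (`split`), `∑_γ h n γ ≤ M`.  So
`h γ = sup_n h n γ` satisfies `∑_γ h γ ≤ M` (finite partial sums), and
`rad (2ⁿ) (fun i => (F n i) γ) ≤ h n γ ≤ h γ`.  Every term tends to `0`: Tannery
(`tendsto_tsum_of_dominated_convergence`).  The same argument gives the second statement: with operators
`S γ` of norm `≤ C` the sums `∑'_γ rad (2ⁿ) (fun i => S γ ((F n i) γ))` tend to `0` if every term does. -/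
def S_S9 : Prop :=
  ∀ (Γ Z : Type) [NormedAddCommGroup Z] [NormedSpace ℝ Z]
    (F : ℕ → ℕ → lp (fun _ : Γ => Z) 1) (M : ℝ), Tree F M →
    ((∀ γ, Tendsto (fun n => rad (2 ^ n) (fun i => (F n i) γ)) atTop (𝓝 0)) →
      Tendsto (fun n => rad (2 ^ n) (F n)) atTop (𝓝 0)) ∧
    ∀ (Z' : Type) [NormedAddCommGroup Z'] [NormedSpace ℝ Z'] (S : Γ → Z →L[ℝ] Z') (C : ℝ),
      (∀ γ, ‖S γ‖ ≤ C) →
      (∀ γ, Tendsto (fun n => rad (2 ^ n) (fun i => S γ ((F n i) γ))) atTop (𝓝 0)) →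
      (∀ n, Summable (fun γ => rad (2 ^ n) (fun i => S γ ((F n i) γ)))) ∧
      Tendsto (fun n => ∑' γ, rad (2 ^ n) (fun i => S γ ((F n i) γ))) atTop (𝓝 0)

/-- S8 (from S1, S7, S9): there is no big tree in the space.

Proof.  For every `j` the coordinates `(F n i) j` form a tree in `E` with bound `M` (evaluation has
norm `≤ 1`).  `Vo R j` is a multiple of some `R l` with factor at most `3`, so by S7 and S1
`rad (2ⁿ) (Vo R j ((F n i) j)) → 0` for every `j`.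
`(F n i) 0 = ∑' j, Vo R j ((F n i) j)` (absolutely convergent), so
`rad (2ⁿ) ((F n i) 0) ≤ ∑' j, rad (2ⁿ) (Vo R j ((F n i) j)) → 0` by the second part of S9 (`C = 3`; norm
of an infinite sum `≤` sum of norms for each choice of signs).  Then
`rad (2ⁿ) ((F n i) k) = rad (2ⁿ) (Uo R k ((F n i) 0)) ≤ ‖Uo R k‖ rad (2ⁿ) ((F n i) 0) → 0` for
every `k` and the first part of S9 (`Γ = ℕ`) finishes the proof. -/
def S_S8 : Prop :=
  ∀ Av R : ℕ → E →L[ℝ] E, Dat Av R → ∀ (F : ℕ → ℕ → Y E) (M : ℝ), Tree F M →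
    (∀ n i k, (F n i) k = Uo R k ((F n i) 0)) →
    (∀ n i, (F n i) 0 = ∑' j, Vo R j ((F n i) j)) →
    Tendsto (fun n => rad (2 ^ n) (F n)) atTop (𝓝 0)

/-! ### Rademacher sequences -/

/-- the sequence `y` has an upper `ℓ₂`-estimate -/
def Up2 {Z : Type} [NormedAddCommGroup Z] [NormedSpace ℝ Z] (y : ℕ → Z) (C : ℝ) : Prop :=
  ∀ (S : Finset ℕ) (e : ℕ → ℝ), (∀ n, |e n| ≤ 1) → ‖∑ n ∈ S, e n • y n‖ ≤ C * √(S.card : ℝ)

/-- Z1: a sequence in `ℓ₁` with an upper `ℓ₂`-estimate tends to zero.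

Proof.  (a) For every `m`: `(y n) m → 0`.  Otherwise there is `δ > 0` and for every `N` a set `S` of
`N` indices with `|(y n) m| ≥ δ`; with `e n = sign ((y n) m)`:
`N δ ≤ (∑ e n • y n) m ≤ C √N`, false for large `N`.  (b) If `‖y n‖ ↛ 0` there is `δ > 0` with
`‖y n‖ ≥ δ` for infinitely many `n`.  Gliding hump: choose `n_1 < n_2 < …` (with `‖y n_j‖ ≥ δ`) and
disjoint finite sets `B_j` with `∑_{m ∉ B_j} |(y n_j) m| ≤ δ/4`: if `B_1, …, B_{j-1} ⊆ [0, L)` are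
chosen, take `n_j` with `∑_{m<L} |(y n_j) m| ≤ δ/8` by (a), then `B_j = [L, L')` with tail `≤ δ/8`.
For `N` of them: `‖∑_{j≤N} y n_j‖ ≥ ∑_j ∑_{m ∈ B_j} |∑_i (y n_i) m|
≥ ∑_j (∑_{m ∈ B_j} |(y n_j) m|) - ∑_i ∑_{m ∉ B_i} |(y n_i) m| ≥ N (3δ/4) - N δ/4 = N δ/2 > C √N` for
large `N`, a contradiction. -/
def S_Z1 : Prop :=
  ∀ (y : ℕ → lp (fun _ : ℕ => ℝ) 1) (C : ℝ), Up2 y C → Tendsto (fun n => ‖y n‖) atTop (𝓝 0)

/-- `A` has finite positive measure and contains no atom -/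
def Diffuse {Ω : Type} [MeasurableSpace Ω] (μ : Measure Ω) (A : Set Ω) : Prop :=
  MeasurableSet A ∧ 0 < μ A ∧ μ A < ⊤ ∧
    ∀ B ⊆ A, MeasurableSet B → 0 < μ B → ∃ C ⊆ B, MeasurableSet C ∧ 0 < μ C ∧ μ C < μ B

/-- `B` is an atom of finite measure -/
def Atm {Ω : Type} [MeasurableSpace Ω] (μ : Measure Ω) (B : Set Ω) : Prop :=
  MeasurableSet B ∧ 0 < μ B ∧ μ B < ⊤ ∧
    ∀ C ⊆ B, MeasurableSet C → μ C = 0 ∨ μ C = μ B

/-- Z2: a diffuse set can be divided.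

Proof.  (Look first whether Mathlib has Sierpinski's theorem for atomless measures.)
Write `a = (μ A).toReal`.  (i) Every measurable `B ⊆ A` with `μ B > 0` contains for each `ε > 0` a
measurable `D` with `0 < μ D ≤ ε`: divide `B` into `C`, `B \ C`, both of positive measure, one of them has
measure `≤ μ B / 2`; iterate.  (ii) Suppose no measurable `C ⊆ A` has `a/3 ≤ μ C ≤ 2a/3`.  Let `𝒮` be
the class of measurable `C ⊆ A` with `μ C < a/3` and `s = sup μ C`.  `𝒮` is closed under finite unions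
(the union has measure `< 2a/3`, so `< a/3`).  Choose `C_n ∈ 𝒮` increasing with `μ C_n → s`;
`C = ⋃ C_n` has `μ C = s ≤ a/3`, so `μ C < a/3`, `C ∈ 𝒮`.  `μ (A \ C) > 0` contains `D` with
`0 < μ D ≤ a/3`; `C ∪ D` has measure `≤ 2a/3`, so it is in `𝒮` and has measure `> s`: contradiction. -/
def S_Z2 : Prop :=
  ∀ (Ω : Type) (_ : MeasurableSpace Ω) (μ : Measure Ω) (A : Set Ω), Diffuse μ A →
    ∃ C ⊆ A, MeasurableSet C ∧ (μ A).toReal / 3 ≤ (μ C).toReal ∧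
      (μ C).toReal ≤ 2 * (μ A).toReal / 3

/-- Z4 (from Z2): a diffuse set gives a tree.

Proof.  A measurable subset of positive measure of a diffuse set is diffuse.  By Z2 construct
(recursively) diffuse sets `A n i` (`i < 2ⁿ`), `A 0 0 = A`, `A n i` the disjoint union of
`A (n+1) (2i)` and `A (n+1) (2i+1)`, `μ (A (n+1) j) ≤ (2/3) μ (A n (j/2))`.  Put
`T n i = (μ A)⁻¹ 1_{A n i}` (`indicatorConstLp`) for `i < 2ⁿ`, and `0` otherwise.  `∑_i ‖T n i‖ = 1`,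
`‖T n i‖ ≤ (2/3)ⁿ`, and `|∑ ± T n i| = (μ A)⁻¹ 1_A` a.e. because the sets are disjoint with union `A`. -/
def S_Z4 : Prop :=
  ∀ (Ω : Type) (_ : MeasurableSpace Ω) (μ : Measure Ω) (A : Set Ω), Diffuse μ A →
    ∃ T : ℕ → ℕ → Lp ℝ 1 μ, Tree T 1 ∧ ∀ (n : ℕ) (S : Finset ℕ),
      ‖∑ i ∈ range (2 ^ n), (if i ∈ S then (1 : ℝ) else -1) • T n i‖ = 1

/-- Z5: without diffuse sets, countably many elements of `L₁(μ)` live on countably many atoms.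

Proof.  `D = ⋃_{n,j} {|y n| > 1/(j+1)}` is a countable union of measurable sets of finite measure
(use the strongly measurable representatives), and `y n = 0` off `D`.  So it is enough to show: if
`D` is measurable with `μ D < ∞`, there are countably many pairwise disjoint `a i ⊆ D`, each empty or an
atom, with `μ (D \ ⋃ a i) = 0`; for the countable union make the pieces `D_m` disjoint first and
combine (`ℕ × ℕ ≃ ℕ`).
(i) Every measurable `B ⊆ D` with `μ B > 0` contains an atom: `B` is not diffuse, so there is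
`B' ⊆ B`, `μ B' > 0`, such that no `C ⊆ B'` has `0 < μ C < μ B'`: `Atm μ B'`.
(ii) Exhaustion: choose recursively `a i ⊆ D \ (a 0 ∪ … ∪ a (i-1))`, an atom with
`2 μ (a i) ≥ sup {μ B : B ⊆ D \ (a 0 ∪ …∪ a (i-1)) atom}` if there is an atom, `∅` otherwise.
`∑ μ (a i) ≤ μ D < ∞`, so `μ (a i) → 0`; an atom `B ⊆ D \ ⋃ a i` would satisfy
`μ B ≤ 2 μ (a i)` for all `i`, impossible.  So by (i) `μ (D \ ⋃ a i) = 0`. -/
def S_Z5 : Prop :=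
  ∀ (Ω : Type) (_ : MeasurableSpace Ω) (μ : Measure Ω), (∀ A, ¬ Diffuse μ A) →
    ∀ y : ℕ → Lp ℝ 1 μ, ∃ (a : ℕ → Set Ω), (∀ i, a i = ∅ ∨ Atm μ (a i)) ∧
      (∀ i j, i ≠ j → Disjoint (a i) (a j)) ∧
      ∀ n, ∀ᵐ t ∂μ, t ∉ ⋃ i, a i → y n t = 0

/-- Z6 (from Z1, Z5): without diffuse sets, sequences with an upper `ℓ₂`-estimate tend to `0`.

Proof.  Take the atoms `a i` of Z5 for the sequence `y`.  Define `w n = (∫_{a i} y n)_i ∈ ℓ₁`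
(`∑_i |∫_{a i} y n| ≤ ‖y n‖`, linear in `y n`).  A real measurable function is a.e. constant on an
atom (of finite measure), so `|∫_{a i} g| = ∫_{a i} |g|` for integrable `g`; hence
`‖w n‖ = ∑_i ∫_{a i} |y n| = ‖y n‖`.  By linearity and `‖(∫_{a i} g)_i‖ ≤ ‖g‖` the sequence `w` has the
upper estimate with the same `C`, so `‖y n‖ = ‖w n‖ → 0` by Z1. -/
def S_Z6 : Prop :=
  ∀ (Ω : Type) (_ : MeasurableSpace Ω) (μ : Measure Ω), (∀ A, ¬ Diffuse μ A) →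
    ∀ (y : ℕ → Lp ℝ 1 μ) (C : ℝ), Up2 y C → Tendsto (fun n => ‖y n‖) atTop (𝓝 0)

/-- the `n`-th Rademacher function -/
noncomputable def rdm (n : ℕ) : E := cylL (n + 1) (fun x => (-1) ^ x)

/-- Z3 (from M1): Rademacher functions.

Proof.  `‖rdm n‖ = l1 (n+1) ((-1)^·) = 1`.  `Up2`: raise all `rdm n`, `n ∈ S`, to a common level `N`
(M1): `rdm n = cylL N (fun x => (-1)^(x / 2^(N-n-1)))`; `‖∑ e n rdm n‖ = l1 N w ≤ √(ip N w w)
= √(∑ e n ²) ≤ √(card S)`, by orthogonality (`ip N` of two different ones is `0`: flip the bit `N-n-1`).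
Third part: `Av i (rdm n) = rdm n` for `i ≠ n` (`i < n`: `avg (n-i)` with `n - i ≥ 1` does not change
the parity; `i > n`: `cyl2`), `Av n (rdm n) = 0` (`avg 0`: `(-1)^x + (-1)^(x ^^^ 1) = 0`).  With `g = rdm n`, `m = n + 1`:
`Av i (R k g) = R k (Av i g)` (`Res.comm`), so `Res.loc` says `R k g + 4⁻ᵏ R k g = g`. -/
def S_Z3 : Prop :=
  (∀ n, ‖rdm n‖ = 1) ∧ Up2 rdm 1 ∧
  ∀ Av R : ℕ → E →L[ℝ] E, Dat Av R → ∀ k n, R k (rdm n) = (1 + 1 * (1 / 4 : ℝ) ^ k)⁻¹ • rdm n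

/-- the Walsh function of degree `d` -/
noncomputable def wal (d : ℕ) : E :=
  cylL d (fun x => ∏ j ∈ range d, (if x.testBit j then (-1 : ℝ) else 1))

/-- Z7 (from M1, M9): Walsh functions.

Proof.  `|wal d| = 1`, so `‖wal d‖ = 1`.  `Av i (wal d) = 0` for `i < d` (flipping one of the bits
`< d` changes the sign) and `= wal d` for `i ≥ d`; so with `m = d`, `g = wal d`, `Res.comm` and `Res.loc`:
`R k g + 4⁻ᵏ d R k g = g`.
`h d = ∑_{x<2^d} (∏_{j<d} ±1) • c x` with the `c` of M9 (`n = d`): `|h d g| ≤ ∑ |c x g| ≤ ‖g‖`.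
`h d (wal d) = ∑_{x<2^d} 1/2^d = 1`.  For `d' = d + m`, `m > 0`: `c x (wal d')` is proportional to
`∑_{y<2^m} ∏_{j<d'} ±1(x 2^m + y) = ± ∑_{y<2^m} ∏_{j<m} ±1(y) = 0`.  For `d' < d`, `d = d' + m`:
`wal d' = cylL d (fun x => w' (x / 2^m))`, so
`h d (wal d') = 2^{-d} ∑_{x<2^d} w_d(x) w'(x/2^m) = 2^{-d} ∑_{z<2^{d'}} w'(z)² ∑_{y<2^m} ∏_{j<m} ±1(y) = 0`. -/
def S_Z7 : Prop :=
  (∀ d, ‖wal d‖ = 1) ∧
  (∀ Av R : ℕ → E →L[ℝ] E, Dat Av R → ∀ k d, R k (wal d) = (1 + d * (1 / 4 : ℝ) ^ k)⁻¹ • wal d) ∧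
  ∃ h : ℕ → E →L[ℝ] ℝ, (∀ d, ‖h d‖ ≤ 1) ∧ ∀ d d', h d (wal d') = if d = d' then 1 else 0

/-! ### script `L₁`-spaces -/

/-- script `L₁`-spaces, as in the frozen statement -/
def SL1 (X : Type) [NormedAddCommGroup X] [NormedSpace ℝ X] : Prop :=
  ∃ l : ℝ, ∀ F : Submodule ℝ X, FiniteDimensional ℝ F →
    ∃ (n : ℕ) (x : Fin n → X), F ≤ Submodule.span ℝ (Set.range x) ∧
      ∀ a : Fin n → ℝ, ‖∑ i, a i • x i‖ ≤ ∑ i, |a i| ∧
        ∑ i, |a i| ≤ l * ‖∑ i, a i • x i‖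

/-- L0: small perturbations.

Proof.  Let `f_1, …, f_m` be a basis of `F`, `C > 0` and `φ_j ∈ B*` with `φ_j f_i = δ_ij`,
`‖φ_j‖ ≤ C` (coordinate functionals on the finite dimensional space `F`, extended by Hahn-Banach
`exists_extension_norm_eq`).  Choose `d_j ∈ D` with `‖f_j - d_j‖ ≤ 1/(2mC + 1)` and put
`N x = ∑ φ_j(x) (f_j - d_j)`, `‖N‖ ≤ 1/2`, `T' = 1 - N`, so `T' f_j = d_j`, `‖T'‖ ≤ 2` and `T = T'⁻¹`
(Neumann series), `‖T‖ ≤ 2`.  `T' f ∈ D` for `f ∈ F` by linearity. -/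
def S_L0 : Prop :=
  ∀ (B : Type) [NormedAddCommGroup B] [NormedSpace ℝ B] [CompleteSpace B] (D : Submodule ℝ B),
    Dense (D : Set B) → ∀ F : Submodule ℝ B, FiniteDimensional ℝ F →
    ∃ T T' : B →L[ℝ] B, ‖T‖ ≤ 2 ∧ ‖T'‖ ≤ 2 ∧ T * T' = 1 ∧ T' * T = 1 ∧ ∀ f ∈ F, T' f ∈ D

/-- L1 (from M1, M4, L0): small perturbations in `L₁`.

Proof.  `D = {cylL n f : n, f}` is a submodule (raise to a common level with the last part of M1) and dense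
(M4).  L0 gives `T, T'`.  The finitely many elements `T' f_j` (basis of `F`) are in `D`, of a common
level `n`; so `T' f = cylL n φ` for all `f ∈ F`, i.e. `f = T (cylL n φ)`. -/
def S_L1 : Prop :=
  ∀ F : Submodule ℝ E, FiniteDimensional ℝ F → ∃ (n : ℕ) (T T' : E →L[ℝ] E),
    ‖T‖ ≤ 2 ∧ ‖T'‖ ≤ 2 ∧ T * T' = 1 ∧ T' * T = 1 ∧ ∀ f ∈ F, ∃ φ : ℕ → ℝ, f = T (cylL n φ)

/-- L2 (from M1, M9, L1): complemented subspaces of `L₁` with a complemented `ℓ₁`-sequence.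

Proof.  Write `j = ‖J‖`, `k = ‖Q‖`; `C ≥ 0`.  Let `F ⊆ X` be finite dimensional.
L1 for `J(F)`: `n, T, T'` with `J f = T (cylL n φ)` for `f ∈ F`.  Let `G = {cylL n φ} ⊆ E` (finite
dimensional), and `H = (1 - J Q) T (G)`.  L1 for `H`: `n', T₁, T₁'` with `T₁' h = cylL n' (..)` for `h ∈ H`.
Let `c x` be the functionals of M9 of level `n'` (`m = 0`): for `h' = cylL n' ψ`:
`∑_{x<2^{n'}} |c x h'| = ‖h'‖`.
Since `∑_m |ws m y| ≤ C ‖y‖` for all `y` and `Q T (G)` is finite dimensional, there is `m₀` with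
`∑_{m₀ ≤ m < N} |ws m (Q T g)| ≤ ε ‖g‖` for all `g ∈ G` and `N` (`ε` below; choose a basis of `G`).
Define for `g ∈ G`: `h(g) = T₁' (1 - J Q) T g ∈ {cylL n' ψ}`, `a = Q T g`,
`b = ∑_{x<2^{n'}} c x (h(g)) • w (m₀ + x)`, `S g = a + b`, a linear map `E → X`.
Upper bound: `‖S g‖ ≤ 2k ‖g‖ + C ‖h(g)‖ ≤ (2k + 4C(1 + jk)) ‖g‖ =: D ‖g‖` (`D ≥ 1` w.l.o.g.).
Lower bound: `y = S g`.  `ws (m₀+x) y = ws (m₀+x) a + c x (h(g))`, so
`‖h(g)‖ = ∑_x |c x (h(g))| ≤ C ‖y‖ + ε ‖g‖`; `‖a‖ ≤ ‖y‖ + ‖b‖ ≤ ‖y‖ + C ‖h(g)‖`;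
`T g = J a + T₁ h(g)`, `‖g‖ ≤ 2 ‖T g‖ ≤ 2j ‖a‖ + 4 ‖h(g)‖ ≤ 2j ‖y‖ + (2jC + 4)(C ‖y‖ + ε ‖g‖)`.  With
`ε = 1/(2(2jC+4))`: `‖g‖ ≤ 2 (2j + (2jC+4) C) ‖y‖ =: L ‖y‖`.
Put `x_i = D⁻¹ S (e_i)`, `e_i = cylL n (2ⁿ δ_i)` (`i < 2ⁿ`): `‖∑ a i e_i‖ = ∑ |a i|` (M1), so
`‖∑ a i x_i‖ ≤ ∑ |a i| ≤ D L ‖∑ a i x_i‖`; `l = D L` does not depend on `F`.  For `f ∈ F`: `J f = T g`,
`g ∈ G`, `(1 - JQ) T g = J f - J Q J f = 0`, so `S g = Q J f = f`: `F ⊆ span (x_i)`. -/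
def S_L2 : Prop :=
  ∀ (X : Type) [NormedAddCommGroup X] [NormedSpace ℝ X] (J : X →L[ℝ] E) (Q : E →L[ℝ] X)
    (w : ℕ → X) (ws : ℕ → X →L[ℝ] ℝ) (C : ℝ), (∀ x, Q (J x) = x) → (∀ m, ‖w m‖ ≤ C) →
    (∀ m l, ws m (w l) = if m = l then 1 else 0) →
    (∀ (x : X) (N : ℕ), ∑ m ∈ range N, |ws m x| ≤ C * ‖x‖) → SL1 X

/-- L3 (from L0): `ℓ₁`-sums of script `L₁`-spaces.

Proof.  Let `l ≥ 1` be a constant for `X`, `B = ℓ₁(Γ; X)`, `F ⊆ B` finite dimensional.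
The finitely supported elements are a dense submodule `D`; L0 gives `T, T'` with `T' f ∈ D` for
`f ∈ F`; so there is a finite `G ⊆ Γ` with `T' f` supported in `G` for all `f ∈ F` (basis).  For
`γ ∈ G` let `x^γ_1, …, x^γ_{n_γ}` be as in the definition of `SL1 X` for the finite dimensional
subspace `{(T' f) γ : f ∈ F}`.  The vectors `x = ½ T (lp.single γ x^γ_i)` (`γ ∈ G`, `i < n_γ`; enumerate the
finite index type by `Fin n`) span a space containing `F`, and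
`‖∑ a_{γi} ½ T (single γ x^γ_i)‖ ≤ ∑_γ ‖∑_i a_{γi} x^γ_i‖ ≤ ∑ |a_{γi}|`,
`∑ |a_{γi}| ≤ l ∑_γ ‖∑_i a_{γi} x^γ_i‖ = l ‖T' T ∑ ..‖ ≤ 2 l ‖T ∑ a_{γi} single γ x^γ_i‖ = 4 l ‖∑ a x‖`. -/
def S_L3 : Prop :=
  ∀ (Γ X : Type) [NormedAddCommGroup X] [NormedSpace ℝ X] [CompleteSpace X], SL1 X →
    SL1 (lp (fun _ : Γ => X) 1)

/-! ### the bidual -/

/-- `X` is complemented in its bidual -/
def CB (X : Type) [NormedAddCommGroup X] [NormedSpace ℝ X] : Prop :=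
  ∃ p : StrongDual ℝ (StrongDual ℝ X) →L[ℝ] X,
    ∀ x, p (NormedSpace.inclusionInDoubleDual ℝ X x) = x

/-- B1 (from M1, M4, M9): `L₁[0,1]` is complemented in its bidual.

Proof.  For `Φ ∈ E**` and `n` let `c n x ∈ E*` be the functionals of M9 (integrals over the dyadic
intervals of level `n`; choose them once and for all; `c n x (cylL (n+m) f)` is known, so by density M4
`c n x = c (n+1) (2x) + c (n+1) (2x+1)` for `x < 2ⁿ`), and `f n = cylL n (fun x => 2ⁿ Φ (c n x))`.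
`‖f n‖ = ∑_{x<2ⁿ} |Φ (c n x)| = Φ (∑ ± c n x) ≤ ‖Φ‖`, since `‖∑ ± c n x‖ ≤ 1`.  `(f n)` is a martingale for
the dyadic filtration on `([0,1], lam)` bounded in `L₁`, so it converges a.e. to some `f ∈ L₁`
(`MeasureTheory.Submartingale.ae_tendsto_limitProcess` or the like) with `‖f‖ ≤ ‖Φ‖` (Fatou); `Π Φ = f` is
linear (a.e. limits of sums) and bounded.  If `Φ = ι g` then `f n = E[g | F n]`, which converges to `g` in
`L₁`: true for `g = cylL m φ` (`f n = g` for `n ≥ m`), and `‖f n‖ ≤ ‖g‖`, so for all `g` by density;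
an a.e. convergent sequence which converges in `L₁` to `g` has the a.e. limit `g`.
(If you prefer another proof, e.g. `E → (C[0,1])*` and Lebesgue decomposition, or the countably additive part of
`A ↦ Φ(1_A)`: fine.) -/
def S_B1 : Prop := CB E

/-- B2: complemented subspaces.

Proof.  `Π_X Φ = Q (Π_B (J** Φ))`, `(J** Φ)(b*) = Φ (b* ∘ J)`; `J** (ι x) = ι (J x)`. -/
def S_B2 : Prop :=
  ∀ (X B : Type) [NormedAddCommGroup X] [NormedSpace ℝ X] [NormedAddCommGroup B]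
    [NormedSpace ℝ B] (J : X →L[ℝ] B) (Q : B →L[ℝ] X), (∀ x, Q (J x) = x) → CB B → CB X

/-- B3: `ℓ₁`-sums.

Proof.  Let `Π` be the projection for `X`, `B = ℓ₁(Γ; X)`, `Φ ∈ B**`.  For `γ ∈ Γ` put
`Φ_γ ∈ X**`, `Φ_γ (x*) = Φ (x* ∘ ev_γ)`, `ev_γ F = F γ`.  `∑_γ ‖Φ_γ‖ ≤ ‖Φ‖`: for a finite `G`, and
`x*_γ` (`γ ∈ G`) of norm `≤ 1`, `∑_{γ∈G} Φ_γ (x*_γ) = Φ (∑_{γ∈G} x*_γ ∘ ev_γ) ≤ ‖Φ‖`, since the functional
`∑_{γ∈G} x*_γ ∘ ev_γ` has norm `≤ 1` on the `ℓ₁`-sum.  So `(Π Φ_γ)_γ ∈ ℓ₁(Γ; X)` with norm `≤ ‖Π‖ ‖Φ‖`;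
for `Φ = ι F` we get `Φ_γ = ι (F γ)` and `Π Φ_γ = F γ`. -/
def S_B3 : Prop :=
  ∀ (Γ X : Type) [NormedAddCommGroup X] [NormedSpace ℝ X], CB X → CB (lp (fun _ : Γ => X) 1)

/-- B4: uncountable `ℓ₁`-sums are not separable.

Proof.  For `x` with `‖x‖ = 1` the vectors `lp.single 1 γ x`, `γ ∈ Γ`, have mutual distances `2`
(uncountable separated set). -/
def S_B4 : Prop :=
  ∀ (Γ X : Type) [NormedAddCommGroup X] [NormedSpace ℝ X] [Nontrivial X] [Uncountable Γ],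
    ¬ TopologicalSpace.SeparableSpace (lp (fun _ : Γ => X) 1)

/-! ### the space -/

/-- W0 (from A2, A7, M6): the operators.

Proof.  M6 gives `Av`; A2 (with `B = E`) gives `R` with `Res Av R`; A7 (with `Fam R = res.fam`) gives `P`. -/
def S_W0 : Prop :=
  ∃ (Av R : ℕ → E →L[ℝ] E) (P : Y E →L[ℝ] Y E), Dat Av R ∧ P * P = P ∧
    ∀ (F : Y E) (k : ℕ), (P F) k = Uo R k (∑' j, Vo R j (F j))

/-- W2 (from A6, A8, Z3): the Rademacher functions in the space.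

Proof.  `r n = rdm n` is an eigenvector: A8 with `d = 1` gives `x n ∈ Y E` with
`(x n) k = Uo R k (r n)`.  `(P (x n)) k = Uo R k (∑' j, Vo R j ((x n) j)) = Uo R k (r n)` by A6: `P (x n) = x n`.
`‖x n‖ ≥ ‖(x n) 0‖ = ‖r n‖ = 1`.  For `e, S` the vector `g = ∑_{n∈S} e n • r n` satisfies
`R k g = (1 + 4⁻ᵏ)⁻¹ g`, A8 gives `F` with `F k = Uo R k g = ∑ e n • (x n) k` (so `F = ∑ e n • x n`) and
`‖F‖ ≤ 3 ‖g‖ ≤ 3 √(card S)`. -/
def S_W2 : Prop :=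
  ∀ (Av R : ℕ → E →L[ℝ] E) (P : Y E →L[ℝ] Y E), Dat Av R →
    (∀ (F : Y E) (k : ℕ), (P F) k = Uo R k (∑' j, Vo R j (F j))) →
    ∃ x : ℕ → Y E, (∀ n, P (x n) = x n) ∧ (∀ n, 1 ≤ ‖x n‖) ∧ Up2 x 3

/-- W3 (from A6, A8, Z7): a complemented `ℓ₁`-sequence in the space.

Proof.  For `m` let `d = 4^m`; A8 gives `F` with `F k = Uo R k (wal d)`, `‖F‖ ≤ 3 √d = 3 · 2^m`.  Put
`w m = 2^{-m} • F`, `‖w m‖ ≤ 3`; `P (w m) = w m` as in W2.
`(w m) (m+1) = 2^{-m} 2^m (1 - R (m+1)) (wal d) = (1 - (1 + 4^m/4^{m+1})⁻¹) wal d = (1/5) wal d`;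
`(w l) (m+1)` is a multiple of `wal (4^l)`.  So `ws m F = 5 h_{4^m} (F (m+1))` (`h` from Z7) satisfies
`ws m (w l) = δ_{ml}` and `∑_{m<N} |ws m F| ≤ 5 ∑ ‖F (m+1)‖ ≤ 5 ‖F‖`. -/
def S_W3 : Prop :=
  ∀ (Av R : ℕ → E →L[ℝ] E) (P : Y E →L[ℝ] Y E), Dat Av R →
    (∀ (F : Y E) (k : ℕ), (P F) k = Uo R k (∑' j, Vo R j (F j))) →
    ∃ (w : ℕ → Y E) (ws : ℕ → Y E →L[ℝ] ℝ), (∀ m, P (w m) = w m) ∧
      (∀ m, ‖w m‖ ≤ 5) ∧ (∀ m l, ws m (w l) = if m = l then 1 else 0) ∧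
      ∀ (F : Y E) (N : ℕ), ∑ m ∈ range N, |ws m F| ≤ 5 * ‖F‖

/-- W4 (from W0, W2, W3, M8, S8): the space as an abstract complemented subspace of `L₁[0,1]`.

Proof.  `J₀ : Y E → E`, `Q₀ : E → Y E` from M8 (`Q₀ J₀ = 1`), `P` from W0.  `Π = J₀ P Q₀` is a projection of
`E` (`Π Π = J₀ P (Q₀ J₀) P Q₀ = Π`).  `X = range Π` (closed: `= ker (1 - Π)`), closed complemented.
For `y ∈ X`: `y = Π y`, so with `F = Q₀ y`: `P F = Q₀ J₀ P Q₀ y = Q₀ Π y = Q₀ y = F`; and `y = J₀ P Q₀ y = J₀ F`.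
`S : X →L Y E`, `S y = Q₀ y` satisfies `J₀ (S y) = y`, so it is an isomorphism onto its image, and
`P (S y) = S y`.  Conversely if `P F = F` then `J₀ F ∈ X` and `S (J₀ F) = F`.
Rademachers: `x' n = J₀ (x n) ∈ X`; `‖x n‖ = ‖Q₀ (x' n)‖ ≤ ‖Q₀‖ ‖x' n‖`, so `‖x' n‖ ≥ 1/(‖Q₀‖+1) =: c`,
`Up2 x' (3 ‖J₀‖)`.
`w' m = J₀ (w m)`, `ws' m = ws m ∘ S`.
Trees: if `(T n i)` is a tree in `X`, `F n i = S (T n i)` is a tree in `Y E` with bound `‖S‖ M`;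
`F = F n i` satisfies `P F = F`, so `F k = Uo R k h` with `h = ∑' Vo R j (F j)`, and `F 0 = h` (`Uo R 0 = 1`):
both hypotheses of S8 hold; `rad (T n) = rad (J₀ (F n)) ≤ ‖J₀‖ rad (F n) → 0` (S1). -/
def S_W4 : Prop :=
  ∃ X : Submodule ℝ E, X.ClosedComplemented ∧ IsClosed (X : Set E) ∧
    (∃ (x : ℕ → X) (c C : ℝ), 0 < c ∧ (∀ n, c ≤ ‖x n‖) ∧ Up2 x C) ∧
    (∃ (w : ℕ → X) (ws : ℕ → X →L[ℝ] ℝ) (C : ℝ), (∀ m, ‖w m‖ ≤ C) ∧
      (∀ m l, ws m (w l) = if m = l then 1 else 0) ∧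
      ∀ (y : X) (N : ℕ), ∑ m ∈ range N, |ws m y| ≤ C * ‖y‖) ∧
    ∀ (T : ℕ → ℕ → X) (M : ℝ), Tree T M → Tendsto (fun n => rad (2 ^ n) (T n)) atTop (𝓝 0)

/-- the theorem (from W4, L2, L3, B1 - B4, S1, S9, Z4, Z6): there is a complemented subspace `X` of
`L₁[0,1]` such that for every nonempty set `Γ` the `ℓ₁`-sum of `Γ` copies of `X` is a script
`L₁`-space, complemented in its bidual, not separable if `Γ` is uncountable, and isomorphic to no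
`L₁(μ)`.

Proof.  `X` from W4; `Q : E →L X` the projection, `J` the inclusion.  `SL1 X` by L2, `SL1 (ℓ₁(Γ;X))` by
L3 (`X` is complete, being closed); `CB X` by B1, B2; `CB (ℓ₁(Γ;X))` by B3; B4 (`X` is nontrivial as `w 0 ≠ 0`);
`X` is infinite dimensional since the `w m` are linearly independent.
Let `Θ : ℓ₁(Γ;X) ≃L Lp ℝ 1 μ`.
Case 1: some `A` is diffuse.  Z4 gives the tree `T` in `Lp ℝ 1 μ`; `F n i = Θ⁻¹ (T n i)` is a tree in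
`ℓ₁(Γ;X)` with bound `‖Θ⁻¹‖`; its coordinates `(F n i) γ` are trees in `X`, so by W4 and S9
`rad (2ⁿ) (F n) → 0`.  But `1 = ‖∑ ± T n i‖ ≤ ‖Θ‖ ‖∑ ± F n i‖` for all signs, so
`rad (2ⁿ) (F n) ≥ 1/(‖Θ‖+1)` (S1, last part): contradiction.
Case 2: no diffuse set.  Choose `γ₀ ∈ Γ`; `y n = Θ (lp.single 1 γ₀ (x n))` has the upper estimate with
constant `‖Θ‖ C`, so `‖y n‖ → 0` (Z6), but
`c ≤ ‖x n‖ = ‖lp.single 1 γ₀ (x n)‖ ≤ ‖Θ⁻¹‖ ‖y n‖`: contradiction. -/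
def S_Main : Prop :=
  ∃ X : Submodule ℝ E, X.ClosedComplemented ∧ ¬ FiniteDimensional ℝ X ∧
    ∀ (Γ : Type) [Nonempty Γ], SL1 (lp (fun _ : Γ => X) 1) ∧ CB (lp (fun _ : Γ => X) 1) ∧
      (Uncountable Γ → ¬ TopologicalSpace.SeparableSpace (lp (fun _ : Γ => X) 1)) ∧
      ∀ (Ω : Type) (m : MeasurableSpace Ω) (μ : @Measure Ω m),
        IsEmpty (lp (fun _ : Γ => X) 1 ≃L[ℝ] Lp ℝ 1 μ)

end Pool.Agent.Exo
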