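import Pool.Agent.Lib.MP_935088_an.EX.Stm
import Pool.Agent.Lib.MP_935088_an.EX.P.A0
import Pool.Agent.Lib.MP_935088_an.EX.P.A1
import Pool.Agent.Lib.MP_935088_an.EX.P.A2
import Pool.Agent.Lib.MP_935088_an.EX.P.A3
import Pool.Agent.Lib.MP_935088_an.EX.P.A4
import Pool.Agent.Lib.MP_935088_an.EX.P.A5
import Pool.Agent.Lib.MP_935088_an.EX.P.A6
import Pool.Agent.Lib.MP_935088_an.EX.P.A7
import Pool.Agent.Lib.MP_935088_an.EX.P.A8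
import Pool.Agent.Lib.MP_935088_an.EX.P.M1
import Pool.Agent.Lib.MP_935088_an.EX.P.M4
import Pool.Agent.Lib.MP_935088_an.EX.P.M9
import Pool.Agent.Lib.MP_935088_an.EX.P.B1
import Pool.Agent.Lib.MP_935088_an.EX.P.B2
import Pool.Agent.Lib.MP_935088_an.EX.P.B3
import Pool.Agent.Lib.MP_935088_an.EX.P.B4
import Pool.Agent.Lib.MP_935088_an.EX.P.L0
import Pool.Agent.Lib.MP_935088_an.EX.P.L1
import Pool.Agent.Lib.MP_935088_an.EX.P.L2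
import Pool.Agent.Lib.MP_935088_an.EX.P.L3
import Pool.Agent.Lib.MP_935088_an.EX.P.M2
import Pool.Agent.Lib.MP_935088_an.EX.P.M3
import Pool.Agent.Lib.MP_935088_an.EX.P.M5
import Pool.Agent.Lib.MP_935088_an.EX.P.M6
import Pool.Agent.Lib.MP_935088_an.EX.P.M7
import Pool.Agent.Lib.MP_935088_an.EX.P.M8
import Pool.Agent.Lib.MP_935088_an.EX.P.S1
import Pool.Agent.Lib.MP_935088_an.EX.P.S9
import Pool.Agent.Lib.MP_935088_an.EX.P.Z2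
import Pool.Agent.Lib.MP_935088_an.EX.P.Z4
import Pool.Agent.Lib.MP_935088_an.EX.P.Z1
import Pool.Agent.Lib.MP_935088_an.EX.P.Z5
import Pool.Agent.Lib.MP_935088_an.EX.P.Z6
import Pool.Agent.Lib.MP_935088_an.EX.P.W0
import Pool.Agent.Lib.MP_935088_an.EX.P.Z3
import Pool.Agent.Lib.MP_935088_an.EX.P.W2
import Pool.Agent.Lib.MP_935088_an.EX.P.Z7
import Pool.Agent.Lib.MP_935088_an.EX.P.W3
import Pool.Agent.Lib.MP_935088_an.EX.P.S2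
import Pool.Agent.Lib.MP_935088_an.EX.P.S3
import Pool.Agent.Lib.MP_935088_an.EX.P.N1
import Pool.Agent.Lib.MP_935088_an.EX.P.N3
import Pool.Agent.Lib.MP_935088_an.EX.P.N4
import Pool.Agent.Lib.MP_935088_an.EX.P.N2
import Pool.Agent.Lib.MP_935088_an.EX.P.N5
import Pool.Agent.Lib.MP_935088_an.EX.P.N6
import Pool.Agent.Lib.MP_935088_an.EX.P.N7
import Pool.Agent.Lib.MP_935088_an.EX.P.N8
import Pool.Agent.Lib.MP_935088_an.EX.P.S4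
import Pool.Agent.Lib.MP_935088_an.EX.P.S5
import Pool.Agent.Lib.MP_935088_an.EX.P.S6
import Pool.Agent.Lib.MP_935088_an.EX.P.S7
import Pool.Agent.Lib.MP_935088_an.EX.P.S8
import Pool.Agent.Lib.MP_935088_an.EX.P.W4
import Pool.Agent.Lib.MP_935088_an.EX.P.Main

set_option autoImplicit false

namespace Pool.Agent.Exo

theorem t_A0 : S_A0 := p_A0
theorem t_A1 : S_A1 := p_A1
theorem t_A2 : S_A2 := p_A2 t_A0 t_A1
theorem t_A3 : S_A3 := p_A3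
theorem t_A4 : S_A4 := p_A4
theorem t_A5 : S_A5 := p_A5
theorem t_A6 : S_A6 := p_A6
theorem t_A7 : S_A7 := p_A7 t_A3 t_A4 t_A5 t_A6
theorem t_A8 : S_A8 := p_A8
theorem t_M1 : S_M1 := p_M1
theorem t_M4 : S_M4 := p_M4
theorem t_M9 : S_M9 := p_M9
theorem t_B1 : S_B1 := p_B1 t_M1 t_M4 t_M9
theorem t_B2 : S_B2 := p_B2
theorem t_B3 : S_B3 := p_B3
theorem t_B4 : S_B4 := p_B4
theorem t_L0 : S_L0 := p_L0
theorem t_L1 : S_L1 := p_L1 t_M1 t_M4 t_L0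
theorem t_L2 : S_L2 := p_L2 t_M1 t_M9 t_L1
theorem t_L3 : S_L3 := p_L3 t_L0
theorem t_M2 : S_M2 := p_M2
theorem t_M3 : S_M3 := p_M3
theorem t_M5 : S_M5 := p_M5 t_M4
theorem t_M6 : S_M6 := p_M6 t_M1 t_M2 t_M3 t_M4
theorem t_M7 : S_M7 := p_M7
theorem t_M8 : S_M8 := p_M8 t_M7 t_A3 t_A4
theorem t_S1 : S_S1 := p_S1
theorem t_S9 : S_S9 := p_S9 t_S1
theorem t_Z2 : S_Z2 := p_Z2
theorem t_Z4 : S_Z4 := p_Z4 t_Z2
theorem t_Z1 : S_Z1 := p_Z1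
theorem t_Z5 : S_Z5 := p_Z5
theorem t_Z6 : S_Z6 := p_Z6 t_Z1 t_Z5
theorem t_W0 : S_W0 := p_W0 t_A2 t_A7 t_M6
theorem t_Z3 : S_Z3 := p_Z3 t_M1
theorem t_W2 : S_W2 := p_W2 t_A6 t_A8 t_Z3
theorem t_Z7 : S_Z7 := p_Z7 t_M1 t_M9
theorem t_W3 : S_W3 := p_W3 t_A6 t_A8 t_Z7
theorem t_S2 : S_S2 := p_S2 t_M1
theorem t_S3 : S_S3 := p_S3 t_M1
theorem t_N1 : S_N1 := p_N1
theorem t_N3 : S_N3 := p_N3
theorem t_N4 : S_N4 := p_N4 t_N1 t_N3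
theorem t_N2 : S_N2 := p_N2
theorem t_N5 : S_N5 := p_N5 t_N1 t_N2 t_N3
theorem t_N6 : S_N6 := p_N6 t_N4 t_N5
theorem t_N7 : S_N7 := p_N7
theorem t_N8 : S_N8 := p_N8 t_N6 t_N7
theorem t_S4 : S_S4 := p_S4 t_M1 t_S2 t_S3 t_N8
theorem t_S5 : S_S5 := p_S5 t_M1 t_M5 t_S1 t_S4
theorem t_S6 : S_S6 := p_S6
theorem t_S7 : S_S7 := p_S7 t_S1 t_S5 t_S6
theorem t_S8 : S_S8 := p_S8 t_S1 t_S7 t_S9
theorem t_W4 : S_W4 := p_W4 t_W0 t_W2 t_W3 t_M8 t_S8 t_S1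
theorem t_Main : S_Main := p_Main t_S1 t_S9 t_Z4 t_Z6 t_L2 t_L3 t_B1 t_B2 t_B3 t_B4 t_W4

end Pool.Agent.Exo
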